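import Mathlib

/-!
Cardinal bookkeeping lemmas used for the polarized relation at successors of singular cardinals.
-/

set_option autoImplicit false

open Cardinal Set

universe u

namespace Pool.Agent.MP_089608_lc.H36

/-- Choice by well-founded recursion. -/
theorem rec_choice {X : Type*} {Y : Type*} [LT X] [WellFoundedLT X]
    (P : ∀ x : X, (∀ x' : X, x' < x → Y) → Y → Prop)
    (h : ∀ x f, ∃ y, P x f y) :
    ∃ F : X → Y, ∀ x, P x (fun x' _ => F x') (F x) := by
  classical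
  let G : ∀ x : X, (∀ x' : X, x' < x → Y) → Y := fun x f => Classical.choose (h x f)
  refine ⟨(wellFounded_lt (α := X)).fix G, fun x => ?_⟩
  rw [WellFounded.fix_eq]
  exact Classical.choose_spec (h x _)

theorem mk_biUnion_le_of_le {ι α : Type u} (A : ι → Set α) (s : Set ι) {c : Cardinal.{u}}
    (hc : ℵ₀ ≤ c) (hs : #s ≤ c) (hA : ∀ i ∈ s, #(A i) ≤ c) : #(⋃ i ∈ s, A i) ≤ c := by
  refine (mk_biUnion_le A s).trans ?_
  have h1 : ⨆ x : s, #(A x.1) ≤ c := ciSup_le' fun x => hA x.1 x.2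
  calc #s * ⨆ x : s, #(A x.1) ≤ c * c := mul_le_mul' hs h1
    _ = c := mul_eq_self hc

theorem mk_iUnion_le_of_le {ι α : Type u} (A : ι → Set α) {c : Cardinal.{u}}
    (hc : ℵ₀ ≤ c) (hs : #ι ≤ c) (hA : ∀ i, #(A i) ≤ c) : #(⋃ i, A i) ≤ c := by
  refine (mk_iUnion_le A).trans ?_
  have h1 : ⨆ x, #(A x) ≤ c := ciSup_le' hA
  calc #ι * ⨆ x, #(A x) ≤ c * c := mul_le_mul' hs h1
    _ = c := mul_eq_self hc

theorem mk_union_le_of_le {α : Type u} {A B : Set α} {c : Cardinal.{u}}
    (hc : ℵ₀ ≤ c) (hA : #A ≤ c) (hB : #B ≤ c) : #(A ∪ B : Set α) ≤ c :=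
  (mk_union_le A B).trans (add_le_of_le hc hA hB)

theorem exists_mem_notMem_of_lt {α : Type u} {A B : Set α} (h : #B < #A) : ∃ x ∈ A, x ∉ B := by
  by_contra hcon
  push Not at hcon
  exact (mk_le_mk_of_subset hcon).not_gt h

/-- In a well order, at most `μ` points have fewer than `μ` predecessors. -/
theorem mk_small_initial_le {W : Type u} [LinearOrder W] [WellFoundedLT W] (μ : Cardinal.{u}) :
    #{t : W | #(Iio t) < μ} ≤ μ := by
  have h : Cardinal.lift.{u + 1} #{t : W | #(Iio t) < μ} ≤ Cardinal.lift.{u} #(Iio μ.ord) := by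
    refine Cardinal.lift_mk_le_lift_mk_of_injective
      (f := fun t => ⟨Ordinal.typein (α := W) (· < ·) t.1, ?_⟩) ?_
    · rw [mem_Iio, Cardinal.lt_ord]
      exact t.2
    · intro a b hab
      apply Subtype.ext
      exact Ordinal.typein_injective _ (congrArg Subtype.val hab)
  rw [Cardinal.mk_Iio_ordinal, card_ord, Cardinal.lift_lift] at h
  simpa using h

/-- A rank function filtering a set of size at most `l`. -/
theorem exists_rank {K : Type u} (X : Set K) {l : Cardinal.{u}} (hX : #X ≤ l) :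
    ∃ rk : K → Cardinal.{u}, (∀ s ∈ X, rk s < l) ∧ ∀ μ, #{s | s ∈ X ∧ rk s < μ} ≤ μ := by
  classical
  have h1 : #X ≤ #l.ord.ToType := by simpa using hX
  obtain ⟨e⟩ := (Cardinal.le_def _ _).1 h1
  refine ⟨fun s => if h : s ∈ X then #(Iio (e ⟨s, h⟩)) else 0, ?_, ?_⟩
  · intro s hs
    simp only [hs, dif_pos]
    simpa using Cardinal.mk_Iio_lt (e ⟨s, hs⟩)
  · intro μ
    refine le_trans ?_ (mk_small_initial_le (W := l.ord.ToType) μ)
    refine Cardinal.mk_le_of_injective (f := fun s => ⟨e ⟨s.1, s.2.1⟩, ?_⟩) ?_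
    · have := s.2.2
      simpa [s.2.1] using this
    · intro a b hab
      have := e.injective (congrArg Subtype.val hab)
      exact Subtype.ext (Subtype.mk.inj this)

/-- Small sets are bounded in a well order of type a successor cardinal. -/
theorem exists_strict_ub {K : Type u} [LinearOrder K] {l : Cardinal.{u}} (hl : ℵ₀ ≤ l)
    (hK : l < #K) (hIio : ∀ a : K, #(Iio a) ≤ l) (X : Set K) (hX : #X ≤ l) :
    ∃ b : K, ∀ x ∈ X, x < b := by
  have hIic : ∀ a : K, #(Iic a) ≤ l := fun a => by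
    rw [← Iio_union_right]
    exact mk_union_le_of_le hl (hIio a) (by simpa using one_le_aleph0.trans hl)
  have h1 : #(⋃ x ∈ X, Iic x) ≤ l := mk_biUnion_le_of_le _ _ hl hX fun x _ => hIic x
  have h2 : #(⋃ x ∈ X, Iic x) < #(univ : Set K) := by simpa using h1.trans_lt hK
  obtain ⟨b, -, hb⟩ := exists_mem_notMem_of_lt h2
  refine ⟨b, fun x hx => ?_⟩
  by_contra hcon
  exact hb (mem_biUnion hx (not_lt.1 hcon))

/-- Injective choice from large sets. -/
theorem exists_injOn_choice {K : Type u} [LinearOrder K] [WellFoundedLT K] (P : Set K)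
    (F : K → Set K) (hF : ∀ a ∈ P, #P < #(F a)) :
    ∃ β : K → K, InjOn β P ∧ ∀ a ∈ P, β a ∈ F a := by
  obtain ⟨β, hβ⟩ := rec_choice (X := K) (Y := K)
    (fun a f y => a ∈ P → y ∈ F a ∧ ∀ a' (h : a' < a), a' ∈ P → f a' h ≠ y) (by
      intro a f
      by_cases ha : a ∈ P
      · have h1 : #(range fun x : {x : K // x < a ∧ x ∈ P} => f x.1 x.2.1) < #(F a) := by
          refine lt_of_le_of_lt (mk_range_le.trans ?_) (hF a ha)
          exact Cardinal.mk_le_of_injective (f := fun x => (⟨x.1, x.2.2⟩ : P))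
            (fun x y hxy => Subtype.ext (Subtype.mk.inj hxy))
        obtain ⟨y, hy, hy'⟩ := exists_mem_notMem_of_lt h1
        exact ⟨y, fun _ => ⟨hy, fun a' h ha' he => hy' ⟨⟨a', h, ha'⟩, he⟩⟩⟩
      · exact ⟨a, fun h => (ha h).elim⟩)
  refine ⟨β, ?_, fun a ha => (hβ a ha).1⟩
  intro a ha b hb hab
  rcases lt_trichotomy a b with h | h | h
  · exact ((hβ b hb).2 a h ha hab).elim
  · exact h
  · exact ((hβ a ha).2 b h hb hab.symm).elim

/-- The points approximated from below by a set. -/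
def Lim {K : Type u} [LinearOrder K] (B : Set K) : Set K :=
  {d | ∀ g < d, ∃ b ∈ B, g < b ∧ b < d}

theorem mk_Lim_le {K : Type u} [LinearOrder K] [WellFoundedLT K] (B : Set K) {c : Cardinal.{u}}
    (hc : ℵ₀ ≤ c) (hB : #B ≤ c) : #(Lim B) ≤ c := by
  classical
  have hsub : Lim B ⊆ {d | d ∈ Lim B ∧ ∃ b ∈ B, d ≤ b} ∪ {d | d ∈ Lim B ∧ ∀ b ∈ B, b < d} := by
    intro d hd
    by_cases h : ∃ b ∈ B, d ≤ b
    · exact Or.inl ⟨hd, h⟩
    · push Not at h
      exact Or.inr ⟨hd, h⟩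
  refine (mk_le_mk_of_subset hsub).trans (mk_union_le_of_le hc ?_ ?_)
  · refine le_trans ?_ hB
    have hne : ∀ d : {d | d ∈ Lim B ∧ ∃ b ∈ B, d ≤ b}, ({b | b ∈ B ∧ d.1 ≤ b} : Set K).Nonempty :=
      fun d => d.2.2
    refine Cardinal.mk_le_of_injective
      (f := fun d => (⟨(wellFounded_lt (α := K)).min _ (hne d),
        ((wellFounded_lt (α := K)).min_mem _ (hne d)).1⟩ : B)) ?_
    have key : ∀ d d' : {d | d ∈ Lim B ∧ ∃ b ∈ B, d ≤ b}, d.1 < d'.1 →
        (wellFounded_lt (α := K)).min _ (hne d) < (wellFounded_lt (α := K)).min _ (hne d') := by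
      intro d d' hlt
      obtain ⟨b, hb, h1, h2⟩ := d'.2.1 d.1 hlt
      have h3 : (wellFounded_lt (α := K)).min _ (hne d) ≤ b :=
        not_lt.1 ((wellFounded_lt (α := K)).not_lt_min _ (show b ∈ {b | b ∈ B ∧ d.1 ≤ b} from ⟨hb, h1.le⟩))
      exact (h3.trans_lt h2).trans_le ((wellFounded_lt (α := K)).min_mem _ (hne d')).2
    intro d d' hdd
    have hdd' := congrArg Subtype.val hdd
    simp only at hdd'
    rcases lt_trichotomy d.1 d'.1 with h | h | h
    · exact ((key d d' h).ne hdd').elim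
    · exact Subtype.ext h
    · exact ((key d' d h).ne hdd'.symm).elim
  · refine le_trans ?_ (one_le_aleph0.trans hc)
    rw [Cardinal.le_one_iff_subsingleton, Set.subsingleton_coe]
    intro d hd d' hd'
    rcases lt_trichotomy d d' with h | h | h
    · obtain ⟨b, hb, h1, -⟩ := hd'.1 d h
      exact (lt_asymm h1 (hd.2 b hb)).elim
    · exact h
    · obtain ⟨b, hb, h1, -⟩ := hd.1 d' h
      exact (lt_asymm h1 (hd'.2 b hb)).elim

/-- Coding of functions by points. -/
theorem exists_code {K L : Type u} {l : Cardinal.{u}} (hl : ℵ₀ ≤ l) (hK : #K = 2 ^ l)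
    (hL : #L = l) : ∃ code : K → (L → K), Function.Surjective code := by
  have h : #(L → K) = #K := by
    rw [← Cardinal.power_def, hK, hL, ← Cardinal.power_mul, mul_eq_self hl]
  obtain ⟨e⟩ := Cardinal.eq.1 h
  exact ⟨e.symm, e.symm.surjective⟩

end Pool.Agent.MP_089608_lc.H36
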