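import Pool.Agent.MP_089608_lc.H36.Basic

/-!
A club principle on the successor of a singular strong limit cardinal `l` with `2 ^ l = l⁺`.
-/

set_option autoImplicit false

open Cardinal Set Order

universe u

namespace Pool.Agent.MP_089608_lc.H36

/-- `C` is a ladder of size `ν⁺` below `d` whose bounded parts have size at most `ν`. -/
def Good {K : Type u} [LinearOrder K] (ν : Cardinal.{u}) (d : K) (C : Set K) : Prop :=
  C ⊆ Iio d ∧ #C = succ ν ∧ ∀ g < d, #(C ∩ Iic g : Set K) ≤ ν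

theorem exists_gt_of_large {K : Type u} [LinearOrder K] {l : Cardinal.{u}} (hl : ℵ₀ ≤ l)
    (hIio : ∀ a : K, #(Iio a) ≤ l) (H : Set K) (hH : l < #H) (a : K) : ∃ x ∈ H, a < x := by
  have hIic : #(Iic a) ≤ l := by
    rw [← Iio_union_right]
    exact mk_union_le_of_le hl (hIio a) (by simpa using one_le_aleph0.trans hl)
  obtain ⟨x, hx, hx'⟩ := exists_mem_notMem_of_lt (hIic.trans_lt hH)
  exact ⟨x, hx, not_le.1 hx'⟩

theorem exists_enum_candidates {K L I : Type u} {l : Cardinal.{u}} (hl : ℵ₀ ≤ l) (hL : #L = l)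
    (hI : #I ≤ l) (D : I → Set K) (hD : ∀ i, 2 ^ #(D i) ≤ l) :
    ∃ cand : L → Set K, ∀ i, ∀ a ⊆ D i, ∃ ξ, cand ξ = a := by
  have h1 : #(insert ∅ (⋃ i, 𝒫 (D i)) : Set (Set K)) ≤ #L := by
    rw [hL]
    refine mk_insert_le.trans (add_le_of_le hl ?_ (one_le_aleph0.trans hl))
    refine mk_iUnion_le_of_le _ hl hI fun i => ?_
    rw [mk_powerset]
    exact hD i
  have hne : Nonempty (insert ∅ (⋃ i, 𝒫 (D i)) : Set (Set K)) := ⟨⟨∅, mem_insert _ _⟩⟩
  obtain ⟨e⟩ := (Cardinal.le_def _ _).1 h1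
  obtain ⟨f, hf⟩ := e.injective.hasLeftInverse
  refine ⟨fun ξ => (f ξ).1, fun i a ha => ⟨e ⟨a, mem_insert_of_mem _ (mem_iUnion.2 ⟨i, ha⟩)⟩, ?_⟩⟩
  simp only [hf _]

theorem club {K : Type u} [LinearOrder K] [WellFoundedLT K] {l : Cardinal.{u}} (hl : ℵ₀ ≤ l)
    (hK : #K = succ l) (hpow : 2 ^ l = succ l) (hIio : ∀ a : K, #(Iio a) ≤ l)
    {I : Type u} (lam : I → Cardinal.{u}) (hcof : ∀ μ < l, ∃ i, μ < lam i)
    (hlam : ∀ i, 2 ^ lam i ≤ l) {ν : Cardinal.{u}} (hν : ℵ₀ ≤ ν) (hIν : #I ≤ ν)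
    (hνl : succ ν ≤ l) :
    ∃ C : K → Set K, ∀ H : Set K, l < #H → ∀ g, ∃ d, g < d ∧ Good ν d (C d) ∧ C d ⊆ H := by
  classical
  have hlK : l < #K := hK ▸ lt_succ l
  have hL : #l.ord.ToType = l := mk_ord_toType l
  obtain ⟨code, hcode⟩ := exists_code (K := K) (L := l.ord.ToType) hl (hK.trans hpow.symm) hL
  choose rk hrk1 hrk2 using fun d : K => exists_rank (Iio d) (hIio d)
  have hIl : #I ≤ l := hIν.trans ((lt_succ ν).le.trans hνl)
  choose cand hcand using fun d : K =>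
    exists_enum_candidates (K := K) hl hL hIl (fun i => {s | s ∈ Iio d ∧ rk d s < lam i})
      (fun i => (Cardinal.power_le_power_left two_ne_zero (hrk2 d _)).trans (hlam i))
  by_contra hcon
  push Not at hcon
  choose H hH γ hγ using fun ξ : l.ord.ToType => hcon (fun d => (fun c => code c ξ) '' cand d ξ)
  obtain ⟨γs, hγs⟩ := exists_strict_ub hl hlK hIio (range γ) (mk_range_le.trans hL.le)
  choose h hh1 hh2 using fun (ξ : l.ord.ToType) (a : K) => exists_gt_of_large hl hIio (H ξ) (hH ξ) a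
  choose g hg using fun a : K => hcode (fun ξ => h ξ a)
  have hnx : ∀ a : K, ∃ b : K, g a < b ∧ ∀ ξ, h ξ a < b := by
    intro a
    obtain ⟨b, hb⟩ := exists_strict_ub hl hlK hIio (insert (g a) (range fun ξ => h ξ a))
      (mk_insert_le.trans (add_le_of_le hl (mk_range_le.trans hL.le) (one_le_aleph0.trans hl)))
    exact ⟨b, hb _ (mem_insert _ _), fun ξ => hb _ (mem_insert_of_mem _ ⟨ξ, rfl⟩)⟩
  choose nx hnx1 hnx2 using hnx
  -- the index type
  set M := (succ ν).ord.ToType with hMdef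
  have hM : #M = succ ν := mk_ord_toType _
  have hMIio : ∀ z : M, #(Iio z) ≤ ν := fun z => by
    have := Cardinal.mk_Iio_lt z (by rw [hM]; exact (Ordinal.type_toType _).symm)
    rw [hM] at this
    exact lt_succ_iff.1 this
  have hνM : ν < #M := hM ▸ lt_succ ν
  obtain ⟨α, hα⟩ := rec_choice (X := M) (Y := K)
    (fun z f y => γs < y ∧ ∀ z' (hz : z' < z), nx (f z' hz) < y) (by
      intro z f
      obtain ⟨b, hb⟩ := exists_strict_ub hl hlK hIio
        (insert γs (range fun x : Iio z => nx (f x.1 x.2)))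
        (mk_insert_le.trans (add_le_of_le hl
          (mk_range_le.trans ((hMIio z).trans ((lt_succ ν).le.trans hνl)))
          (one_le_aleph0.trans hl)))
      exact ⟨b, hb _ (mem_insert _ _), fun z' hz => hb _ (mem_insert_of_mem _ ⟨⟨z', hz⟩, rfl⟩)⟩)
  have hLne : Nonempty l.ord.ToType := by
    rw [← Cardinal.mk_ne_zero_iff, hL]
    exact (aleph0_pos.trans_le hl).ne'
  obtain ⟨ξ0⟩ := hLne
  have hαmono : StrictMono α := fun z' z hz =>
    ((hh2 ξ0 _).trans (hnx2 _ ξ0)).trans ((hα z).2 z' hz)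
  have hMnomax : ∀ z : M, ∃ z', z < z' := fun z => by
    obtain ⟨b, hb⟩ := exists_strict_ub hν hνM hMIio {z} (by simpa using one_le_aleph0.trans hν)
    exact ⟨b, hb z rfl⟩
  -- the supremum
  have hne : ({d | ∀ z, α z < d} : Set K).Nonempty := by
    obtain ⟨b, hb⟩ := exists_strict_ub hl hlK hIio (range α) (mk_range_le.trans (hM.le.trans hνl))
    exact ⟨b, fun z => hb _ ⟨z, rfl⟩⟩
  set d := (wellFounded_lt (α := K)).min _ hne with hd
  have hd1 : ∀ z, α z < d := (wellFounded_lt (α := K)).min_mem _ hne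
  have hd2 : ∀ x < d, ∃ z, x ≤ α z := by
    intro x hx
    by_contra hc
    push Not at hc
    exact (wellFounded_lt (α := K)).not_lt_min _ (show x ∈ {d | ∀ z, α z < d} from hc) hx
  have hgd : ∀ z, g (α z) < d := fun z => by
    obtain ⟨z', hz'⟩ := hMnomax z
    exact ((hnx1 _).trans ((hα z').2 z hz')).trans (hd1 z')
  have hhd : ∀ ξ z, h ξ (α z) < d := fun ξ z => by
    obtain ⟨z', hz'⟩ := hMnomax z
    exact ((hnx2 _ ξ).trans ((hα z').2 z hz')).trans (hd1 z')
  choose col hcol using fun z : M => hcof _ (hrk1 d (g (α z)) (hgd z))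
  have hpig : ∃ i, ν < #{z | col z = i} := by
    by_contra hc
    push Not at hc
    have h1 : #(⋃ i, {z | col z = i}) ≤ ν := mk_iUnion_le_of_le _ hν hIν hc
    have h2 : (⋃ i, {z | col z = i}) = Set.univ := by
      ext z
      simp
    rw [h2, mk_univ] at h1
    exact h1.not_gt hνM
  obtain ⟨i, hi⟩ := hpig
  obtain ⟨ξ, hξ⟩ := hcand d i ((fun z => g (α z)) '' {z | col z = i}) (by
    rintro _ ⟨z, hz, rfl⟩
    refine ⟨hgd z, ?_⟩
    have := hcol z
    rwa [show col z = i from hz] at this)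
  have hC : (fun c => code c ξ) '' cand d ξ = (fun z => h ξ (α z)) '' {z | col z = i} := by
    rw [hξ, image_image]
    simp only [hg]
  have hhmono : StrictMono fun z => h ξ (α z) := fun z' z hz =>
    ((hnx2 _ ξ).trans ((hα z).2 z' hz)).trans (hh2 ξ _)
  obtain ⟨z0⟩ : Nonempty M := by
    rw [← Cardinal.mk_ne_zero_iff]
    exact ((zero_le (a := ν)).trans_lt hνM).ne'
  refine hγ ξ d (((hγs _ ⟨ξ, rfl⟩).trans (hα z0).1).trans (hd1 z0)) ?_ ?_
  · rw [hC]
    refine ⟨?_, ?_, ?_⟩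
    · rintro _ ⟨z, -, rfl⟩
      exact hhd ξ z
    · rw [mk_image_eq hhmono.injective]
      exact le_antisymm ((mk_set_le _).trans hM.le) (succ_le_of_lt hi)
    · intro x hx
      obtain ⟨z1, hz1⟩ := hd2 x hx
      refine le_trans (mk_le_mk_of_subset (t := (fun z => h ξ (α z)) '' Iio z1) ?_)
        (mk_image_le.trans (hMIio z1))
      rintro _ ⟨⟨z, -, rfl⟩, hz⟩
      refine ⟨z, ?_, rfl⟩
      exact hαmono.lt_iff_lt.1 (((hh2 ξ _).trans_le hz).trans_le hz1)
  · rw [hC]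
    rintro _ ⟨z, -, rfl⟩
    exact hh1 ξ _

end Pool.Agent.MP_089608_lc.H36
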