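import Pool.Agent.MP_089608_lc.H36.Club

/-!
The recursive construction of an almost disjoint family meeting every large set.
-/

set_option autoImplicit false

open Cardinal Set Order

universe u

namespace Pool.Agent.MP_089608_lc.H36

section
variable {K : Type u} [LinearOrder K] {I : Type u} (lam : I → Cardinal.{u}) (C : I → K → Set K)

/-- `Z` meets every ladder in a small set. -/
def Prot (Z : Set K) : Prop :=
  ∀ j d, Good (lam j) d (C j d) → #(Z ∩ C j d : Set K) ≤ lam j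

/-- `B` contains many ladders of every level. -/
def Large (B : Set K) : Prop :=
  ∀ j, lam j < #{d | Good (lam j) d (C j d) ∧ C j d ⊆ B}

theorem level [WellFoundedLT K] (hinf : ∀ i, ℵ₀ ≤ lam i) (hI : ∀ i, #I ≤ lam i) (i : I)
    (P : Set K) (hP : #P ≤ lam i) (B : K → Set K) (hB : ∀ a ∈ P, Large lam C (B a))
    (W : Set K) (hW : #W ≤ lam i) (A : K → Set K) (hA : ∀ s ∈ W, Prot lam C (A s)) :
    ∃ Z : Set K, #Z ≤ lam i ∧ (∀ s ∈ W, Disjoint Z (A s)) ∧ (∀ a ∈ P, (Z ∩ B a).Nonempty) ∧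
      Prot lam C Z := by
  classical
  obtain ⟨β, hβinj, hβ⟩ := exists_injOn_choice P
    (fun a => {d | Good (lam i) d (C i d) ∧ C i d ⊆ B a}) (fun a ha => hP.trans_lt (hB a ha i))
  have hLim : #(Lim (β '' P)) ≤ lam i := mk_Lim_le _ (hinf i) (mk_image_le.trans hP)
  -- the points of smaller ladders at limit points
  set E : Set K := ⋃ k ∈ {k | lam k < lam i},
    ⋃ d ∈ {d | d ∈ Lim (β '' P) ∧ Good (lam k) d (C k d)}, C k d with hE
  have hEc : #E ≤ lam i := by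
    refine mk_biUnion_le_of_le _ _ (hinf i) ((mk_set_le _).trans (hI i)) fun k hk => ?_
    refine mk_biUnion_le_of_le _ _ (hinf i)
      ((mk_le_mk_of_subset fun d hd => hd.1).trans hLim) fun d hd => ?_
    rw [hd.2.2.1]
    exact succ_le_of_lt hk
  have hx : ∀ a ∈ P, ∃ x ∈ C i (β a), x ∉ E ∧ (∀ s ∈ W, x ∉ A s) ∧
      ∀ a' ∈ P, β a' < β a → β a' < x := by
    intro a ha
    have hg := (hβ a ha).1
    have h1 : #(⋃ s ∈ W, (A s ∩ C i (β a))) ≤ lam i :=
      mk_biUnion_le_of_le _ _ (hinf i) hW fun s hs => hA s hs i _ hg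
    have h2 : #(⋃ a' ∈ {a' | a' ∈ P ∧ β a' < β a}, (C i (β a) ∩ Iic (β a'))) ≤ lam i :=
      mk_biUnion_le_of_le _ _ (hinf i) ((mk_le_mk_of_subset fun d hd => hd.1).trans hP)
        fun a' ha' => hg.2.2 _ ha'.2
    have h3 := mk_union_le_of_le (hinf i) hEc (mk_union_le_of_le (hinf i) h1 h2)
    have h4 : lam i < #(C i (β a)) := hg.2.1 ▸ lt_succ _
    obtain ⟨x, hxC, hxn⟩ := exists_mem_notMem_of_lt (h3.trans_lt h4)
    refine ⟨x, hxC, fun h => hxn (Or.inl h), fun s hs h => hxn (Or.inr (Or.inl ?_)),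
      fun a' ha' hlt => ?_⟩
    · exact mem_biUnion hs ⟨h, hxC⟩
    · by_contra hc
      exact hxn (Or.inr (Or.inr (mem_biUnion (show a' ∈ {a' | a' ∈ P ∧ β a' < β a} from ⟨ha', hlt⟩)
        ⟨hxC, not_lt.1 hc⟩)))
  choose! x hx1 hx2 hx3 hx4 using hx
  have hxβ : ∀ a ∈ P, x a < β a := fun a ha => (hβ a ha).1.1 (hx1 a ha)
  refine ⟨x '' P, mk_image_le.trans hP, ?_, ?_, ?_⟩
  · intro s hs
    rw [Set.disjoint_left]
    rintro _ ⟨a, ha, rfl⟩
    exact hx3 a ha s hs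
  · intro a ha
    exact ⟨x a, ⟨a, ha, rfl⟩, (hβ a ha).2 (hx1 a ha)⟩
  · intro k d hg
    rcases le_or_gt (lam i) (lam k) with hik | hik
    · exact ((mk_le_mk_of_subset inter_subset_left).trans (mk_image_le.trans hP)).trans hik
    by_contra hc
    push Not at hc
    have hcof : ∀ g < d, ∃ a ∈ P, x a ∈ C k d ∧ g < x a := by
      intro g hgd
      obtain ⟨y, hy, hy'⟩ := exists_mem_notMem_of_lt ((hg.2.2 g hgd).trans_lt hc)
      obtain ⟨⟨a, ha, rfl⟩, hyC⟩ := hy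
      exact ⟨a, ha, hyC, not_le.1 fun h => hy' ⟨hyC, h⟩⟩
    have hdL : d ∈ Lim (β '' P) := by
      intro g hgd
      obtain ⟨a, ha, haC, hga⟩ := hcof g hgd
      obtain ⟨a', ha', haC', hga'⟩ := hcof (x a) (hg.1 haC)
      refine ⟨β a, ⟨a, ha, rfl⟩, hga.trans (hxβ a ha), ?_⟩
      rcases lt_trichotomy (β a) (β a') with h | h | h
      · exact (hx4 a' ha' a ha h).trans (hg.1 haC')
      · have := hβinj ha ha' h
        subst this
        exact (lt_irrefl _ hga').elim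
      · exact (lt_asymm ((hx4 a ha a' ha' h).trans hga') (hxβ a' ha')).elim
    have hne : (x '' P ∩ C k d).Nonempty := by
      rw [← Set.nonempty_coe_sort, ← Cardinal.mk_ne_zero_iff]
      exact ((zero_le (a := lam k)).trans_lt hc).ne'
    obtain ⟨_, ⟨a, ha, rfl⟩, haC⟩ := hne
    refine hx2 a ha ?_
    rw [hE]
    exact mem_biUnion (show k ∈ {k | lam k < lam i} from hik)
      (mem_biUnion (show d ∈ {d | d ∈ Lim (β '' P) ∧ Good (lam k) d (C k d)} from ⟨hdL, hg⟩) haC)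

theorem step [WellFoundedLT K] {l : Cardinal.{u}} (hIio : ∀ a : K, #(Iio a) ≤ l)
    (hinf : ∀ i, ℵ₀ ≤ lam i) (hI : ∀ i, #I ≤ lam i) (hcof : ∀ μ < l, ∃ i, μ < lam i)
    (hlt : ∀ i, lam i < l)
    (B : K → Set K) (y : K) (A : K → Set K) (hA : ∀ s < y, Prot lam C (A s)) :
    ∃ Z : Set K, Prot lam C Z ∧ (∀ s < y, #(Z ∩ A s : Set K) < l) ∧
      ∀ a < y, Large lam C (B a) → (Z ∩ B a).Nonempty := by
  obtain ⟨rk, hrk1, hrk2⟩ := exists_rank (Iio y) (hIio y)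
  choose Z hZ1 hZ2 hZ3 hZ4 using fun i : I => level lam C hinf hI i
    {a | (a ∈ Iio y ∧ rk a < lam i) ∧ Large lam C (B a)}
    ((mk_le_mk_of_subset fun a ha => ha.1).trans (hrk2 _)) B (fun a ha => ha.2)
    {s | s ∈ Iio y ∧ rk s < lam i} (hrk2 _) A (fun s hs => hA s hs.1)
  refine ⟨⋃ i, Z i, ?_, ?_, ?_⟩
  · intro j d hg
    rw [iUnion_inter]
    exact mk_iUnion_le_of_le _ (hinf j) (hI j) fun i => hZ4 i j d hg
  · intro s hs
    obtain ⟨i0, hi0⟩ := hcof _ (hrk1 s hs)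
    refine lt_of_le_of_lt ?_ (hlt i0)
    rw [iUnion_inter]
    refine mk_iUnion_le_of_le _ (hinf i0) (hI i0) fun i => ?_
    rcases le_or_gt (lam i) (lam i0) with h | h
    · exact ((mk_le_mk_of_subset inter_subset_left).trans (hZ1 i)).trans h
    · have := hZ2 i s ⟨hs, hi0.trans h⟩
      rw [this.inter_eq]
      simp
  · intro a ha hL
    obtain ⟨i0, hi0⟩ := hcof _ (hrk1 a ha)
    obtain ⟨z, hz1, hz2⟩ := hZ3 i0 a ⟨⟨ha, hi0⟩, hL⟩
    exact ⟨z, mem_iUnion.2 ⟨i0, hz1⟩, hz2⟩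

end

theorem exists_family {K : Type u} [LinearOrder K] [WellFoundedLT K] {l : Cardinal.{u}}
    (hl : ℵ₀ ≤ l) (hK : #K = succ l) (hpow : 2 ^ l = succ l) (hIio : ∀ a : K, #(Iio a) ≤ l)
    {I : Type u} (lam : I → Cardinal.{u}) (hinf : ∀ i, ℵ₀ ≤ lam i) (hI : ∀ i, #I ≤ lam i)
    (hcof : ∀ μ < l, ∃ i, μ < lam i) (hlt : ∀ i, lam i < l) (hlam : ∀ i, 2 ^ lam i ≤ l) :
    ∃ A : K → Set K, (∀ s y, s < y → #(A y ∩ A s : Set K) < l) ∧
      ∀ H : Set K, l < #H → ∃ a, ∀ y, a < y → (A y ∩ H).Nonempty := by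
  classical
  have hlK : l < #K := hK ▸ lt_succ l
  choose C hC using fun j : I => club hl hK hpow hIio lam hcof hlam (hinf j) (hI j)
    (succ_le_of_lt (hlt j))
  have hL : #l.ord.ToType = l := mk_ord_toType l
  obtain ⟨code, hcode⟩ := exists_code (K := K) (L := l.ord.ToType) hl (hK.trans hpow.symm) hL
  obtain ⟨F, hF⟩ := rec_choice (X := K) (Y := {Z : Set K // Prot lam C Z})
    (fun y f Z => (∀ s (hs : s < y), #(Z.1 ∩ (f s hs).1 : Set K) < l) ∧
      ∀ a < y, Large lam C (range (code a)) → (Z.1 ∩ range (code a)).Nonempty) (by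
      intro y f
      obtain ⟨Z, hZ1, hZ2, hZ3⟩ := step lam C hIio hinf hI hcof hlt (fun a => range (code a)) y
        (fun s => if h : s < y then (f s h).1 else ∅) (fun s hs => by
          simp only [hs, dif_pos]
          exact (f s hs).2)
      refine ⟨⟨Z, hZ1⟩, fun s hs => ?_, hZ3⟩
      simpa only [hs, dif_pos] using hZ2 s hs)
  refine ⟨fun y => (F y).1, fun s y hs => (hF y).1 s hs, fun H hH => ?_⟩
  -- many ladders inside `H`
  have hmany : ∀ j, ∃ T : Set K, T ⊆ {d | Good (lam j) d (C j d) ∧ C j d ⊆ H} ∧ #T = l := by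
    intro j
    rw [← Cardinal.le_mk_iff_exists_subset]
    by_contra hc
    push Not at hc
    obtain ⟨b, hb⟩ := exists_strict_ub hl hlK hIio _ hc.le
    obtain ⟨d, hd1, hd2⟩ := hC j H hH b
    exact lt_asymm hd1 (hb d hd2)
  choose T hT1 hT2 using hmany
  obtain ⟨i0, -⟩ := hcof 0 (aleph0_pos.trans_le hl)
  set B : Set K := ⋃ j, ⋃ d ∈ T j, C j d with hB
  have hBc : #B ≤ l := by
    refine mk_iUnion_le_of_le _ hl ((hI i0).trans (hlt i0).le) fun j => ?_
    refine mk_biUnion_le_of_le _ _ hl (hT2 j).le fun d hd => ?_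
    rw [(hT1 j hd).1.2.1]
    exact succ_le_of_lt (hlt j)
  have hBH : B ⊆ H := by
    intro x hx
    simp only [hB, mem_iUnion] at hx
    obtain ⟨j, d, hd, hx⟩ := hx
    exact (hT1 j hd).2 hx
  have hBL : Large lam C B := by
    intro j
    refine (hlt j).trans_le ((hT2 j).ge.trans (mk_le_mk_of_subset fun d hd => ⟨(hT1 j hd).1, ?_⟩))
    intro x hx
    simp only [hB, mem_iUnion]
    exact ⟨j, d, hd, hx⟩
  have hBne : Nonempty B := by
    have h1 : (T i0).Nonempty := by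
      rw [← Set.nonempty_coe_sort, ← Cardinal.mk_ne_zero_iff, hT2]
      exact (aleph0_pos.trans_le hl).ne'
    obtain ⟨d, hd⟩ := h1
    have h2 : (C i0 d).Nonempty := by
      rw [← Set.nonempty_coe_sort, ← Cardinal.mk_ne_zero_iff, (hT1 i0 hd).1.2.1]
      exact succ_ne_zero _
    obtain ⟨x, hx⟩ := h2
    refine ⟨⟨x, ?_⟩⟩
    simp only [hB, mem_iUnion]
    exact ⟨i0, d, hd, hx⟩
  obtain ⟨e⟩ := (Cardinal.le_def _ _).1 (hBc.trans hL.ge)
  obtain ⟨f, hf⟩ := e.injective.hasLeftInverse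
  obtain ⟨a, ha⟩ := hcode (fun ξ => (f ξ).1)
  have hrange : range (code a) = B := by
    rw [ha]
    ext x
    constructor
    · rintro ⟨ξ, rfl⟩
      exact (f ξ).2
    · intro hx
      exact ⟨e ⟨x, hx⟩, by simp only [hf _]⟩
  refine ⟨a, fun y hy => ?_⟩
  obtain ⟨z, hz1, hz2⟩ := (hF y).2 a hy (hrange ▸ hBL)
  exact ⟨z, hz1, hBH (hrange ▸ hz2)⟩

/-- A cofinal family of cardinals below a singular cardinal. -/
theorem exists_cofinal {l : Cardinal.{u}} (hl : l.IsSingular) :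
    ∃ (I : Type u) (lam : I → Cardinal.{u}), (∀ i, ℵ₀ ≤ lam i) ∧ (∀ i, #I ≤ lam i) ∧
      (∀ μ < l, ∃ i, μ < lam i) ∧ ∀ i, lam i < l := by
  obtain ⟨I, f, hf, hI⟩ := Ordinal.exists_lsub_cof l.ord
  have h0 : ℵ₀ < l := hl.aleph0_le.lt_of_ne fun h => not_isSingular_aleph0 (h ▸ hl)
  have hIl : #I < l := hI ▸ hl.cof_ord_lt
  refine ⟨I, fun i => max (max ℵ₀ #I) (succ (f i).card), fun i => ?_, fun i => ?_, ?_, fun i => ?_⟩
  · exact (le_max_left _ _).trans (le_max_left _ _)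
  · exact (le_max_right _ _).trans (le_max_left _ _)
  · intro μ hμ
    have h1 : μ.ord < Ordinal.lsub f := by
      rw [hf]
      exact Cardinal.ord_lt_ord.2 hμ
    obtain ⟨i, hi⟩ := Ordinal.lt_lsub_iff.1 h1
    exact ⟨i, (lt_succ_iff.2 (Cardinal.ord_le.1 hi)).trans_le (le_max_right _ _)⟩
  · refine max_lt (max_lt h0 hIl) (hl.isSuccLimit.succ_lt ?_)
    rw [← Cardinal.lt_ord, ← hf]
    exact Ordinal.lt_lsub f i

end Pool.Agent.MP_089608_lc.H36
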